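import Pool.Agent.H18.CGR.Stmts2

/-!
# Row SAJ of the board `cgr`: the conjugate variables are self-adjoint
-/

set_option autoImplicit false

open Filter
open scoped Topology

namespace Pool.CGR

namespace SAJ

variable {A : Type} [CStarAlgebra A] {τ : A →ₗ[ℂ] ℂ} {m : ℕ} {x : Fin m → A}

theorem tau_star (hτ : IsTrace τ) (b : A) : τ (star b) = (starRingEnd ℂ) (τ b) := by
  have key : ∀ z : ℂ, (z * τ (star b) + (starRingEnd ℂ) z * τ b).im = 0 := by
    intro z
    have h0 := (hτ.pos b).2
    have h1 := (hτ.pos (b + z • (1 : A))).2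
    have h2 : star (b + z • (1 : A)) * (b + z • (1 : A)) = star b * b + z • star b +
        (starRingEnd ℂ) z • b + ((starRingEnd ℂ) z * z) • (1 : A) := by
      rw [star_add, star_smul, star_one, add_mul, mul_add, mul_add, mul_smul_comm, mul_one,
        smul_mul_assoc, one_mul, smul_mul_assoc, one_mul, smul_smul]
      rw [show star z = (starRingEnd ℂ) z from rfl]
      abel
    rw [h2, map_add, map_add, map_add, map_smul, map_smul, map_smul, hτ.one, smul_eq_mul,
      smul_eq_mul, smul_eq_mul, mul_one] at h1
    have h3 : ((starRingEnd ℂ) z * z).im = 0 := by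
      rw [← Complex.normSq_eq_conj_mul_self]
      exact Complex.ofReal_im _
    rw [Complex.add_im, Complex.add_im, Complex.add_im, h0, h3] at h1
    rw [Complex.add_im]
    linarith
  have h1 := key 1
  have h2 := key Complex.I
  rw [map_one, one_mul, one_mul, Complex.add_im] at h1
  rw [Complex.conj_I] at h2
  simp only [Complex.add_im, Complex.mul_im, Complex.I_re, Complex.I_im,
    Complex.neg_im, zero_mul, one_mul, zero_add, neg_mul] at h2
  apply Complex.ext
  · rw [Complex.conj_re]
    linarith
  · rw [Complex.conj_im]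
    linarith

theorem star_ev (hx : ∀ i, IsSelfAdjoint (x i)) (w : List (Fin m)) :
    star (ev x w) = ev x w.reverse := by
  unfold ev
  induction w with
  | nil => simp
  | cons a w ih =>
    rw [List.map_cons, List.prod_cons, star_mul, ih, List.reverse_cons, List.map_append,
      List.prod_append, (hx a).star_eq]
    simp

theorem phi_rev (hτ : IsTrace τ) (hx : ∀ i, IsSelfAdjoint (x i)) (w : List (Fin m)) :
    τ (ev x w.reverse) = (starRingEnd ℂ) (τ (ev x w)) := by
  rw [← star_ev hx, tau_star hτ]

theorem dq_rev (hτ : IsTrace τ) (hx : ∀ i, IsSelfAdjoint (x i)) (i : Fin m) (w : List (Fin m)) :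
    dq (fun w => τ (ev x w)) i w.reverse = (starRingEnd ℂ) (dq (fun w => τ (ev x w)) i w) := by
  unfold dq
  rw [map_sum, List.length_reverse, ← Finset.sum_range_reflect]
  refine Finset.sum_congr rfl fun k hk => ?_
  rw [Finset.mem_range] at hk
  have h1 : w.reverse[w.length - 1 - k]? = w[k]? := by
    rw [List.getElem?_reverse (by omega)]
    congr 1
    omega
  have h2 : w.reverse.take (w.length - 1 - k) = (w.drop (k + 1)).reverse := by
    rw [List.take_reverse]
    congr 2
    omega
  have h3 : w.reverse.drop (w.length - 1 - k + 1) = (w.take k).reverse := by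
    rw [List.drop_reverse]
    congr 2
    omega
  rw [h1, h2, h3]
  by_cases h : w[k]? = some i
  · rw [if_pos h, if_pos h]
    show τ (ev x (w.drop (k + 1)).reverse) * τ (ev x (w.take k).reverse) =
      (starRingEnd ℂ) (τ (ev x (w.take k)) * τ (ev x (w.drop (k + 1))))
    rw [phi_rev hτ hx, phi_rev hτ hx, map_mul, mul_comm]
  · rw [if_neg h, if_neg h, map_zero]

end SAJ

open SAJ in
theorem saj_thm : SAJStmt := by
  intro m A _ τ hτ x hx i J hJ H hH
  obtain ⟨d, hd⟩ : ∃ d, d = J - star J := ⟨_, rfl⟩
  have hJs : ∀ w : List (Fin m), τ (star J * ev x w) = τ (J * ev x w) := by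
    intro w
    have h1 : star J * ev x w = star (ev x w.reverse * J) := by
      rw [star_mul, star_ev hx, List.reverse_reverse]
    rw [h1, tau_star hτ, hτ.comm, hJ, dq_rev hτ hx, Complex.conj_conj, hJ]
  have hdw : ∀ w : List (Fin m), τ (d * ev x w) = 0 := by
    intro w
    rw [hd, sub_mul, map_sub, hJs, sub_self]
  have hdc : ∀ w : List (Fin m), τ (d * cg x i w) = 0 := by
    intro w
    unfold cg
    rw [Finset.mul_sum, map_sum]
    refine Finset.sum_eq_zero fun k _ => ?_
    by_cases h : w[k]? = some i
    · rw [if_pos h, hdw]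
    · rw [if_neg h, mul_zero, map_zero]
  have hdcs : ∀ w : List (Fin m), τ (d * star (cg x i w)) = 0 := by
    intro w
    unfold cg
    rw [star_sum, Finset.mul_sum, map_sum]
    refine Finset.sum_eq_zero fun k _ => ?_
    by_cases h : w[k]? = some i
    · rw [if_pos h, star_ev hx, hdw]
    · rw [if_neg h, star_zero, mul_zero, map_zero]
  let τc : A →L[ℂ] ℂ := τ.mkContinuous 1 fun a => by rw [one_mul]; exact hτ.norm a
  have hτc : ∀ a, τc a = τ a := fun a => rfl
  have h1 : Tendsto (fun n => τ (d * (H n).sum fun w r => r • cg x i w)) atTop (𝓝 (τ (d * J))) := by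
    have h2 : Continuous fun a : A => τc (d * a) := τc.continuous.comp (continuous_const.mul continuous_id)
    exact (h2.tendsto J).comp hH
  have h2 : Tendsto (fun n => τ (d * star ((H n).sum fun w r => r • cg x i w))) atTop
      (𝓝 (τ (d * star J))) := by
    have h3 : Continuous fun a : A => τc (d * star a) :=
      τc.continuous.comp (continuous_const.mul continuous_star)
    exact (h3.tendsto J).comp hH
  have e1 : ∀ n, τ (d * (H n).sum fun w r => r • cg x i w) = 0 := by
    intro n
    rw [Finsupp.sum, Finset.mul_sum, map_sum]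
    refine Finset.sum_eq_zero fun w _ => ?_
    rw [mul_smul_comm, map_smul, hdc, smul_zero]
  have e2 : ∀ n, τ (d * star ((H n).sum fun w r => r • cg x i w)) = 0 := by
    intro n
    rw [Finsupp.sum, star_sum, Finset.mul_sum, map_sum]
    refine Finset.sum_eq_zero fun w _ => ?_
    rw [star_smul, mul_smul_comm, map_smul, hdcs, smul_zero]
  simp only [e1] at h1
  simp only [e2] at h2
  have h3 : τ (d * J) = 0 := tendsto_nhds_unique h1 tendsto_const_nhds
  have h4 : τ (d * star J) = 0 := tendsto_nhds_unique h2 tendsto_const_nhds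
  have h5 : star d = -d := by
    rw [hd, star_sub, star_star, neg_sub]
  have h6 : τ (star d * d) = 0 := by
    rw [h5, neg_mul, map_neg]
    have h7 : τ (d * d) = 0 := by
      have h8 : d * d = d * J - d * star J := by
        rw [← mul_sub, ← hd]
      rw [h8, map_sub, h3, h4, sub_zero]
    rw [h7, neg_zero]
  have h7 := hτ.faithful d h6
  rw [hd, sub_eq_zero] at h7
  exact h7.symm

end Pool.CGR
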