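import Pool.Agent.H18.CGR.Stmts

/-!
# Row SPN of the board `cgr`: the vectors `nn κ w` span
-/

set_option autoImplicit false

namespace Pool.CGR

namespace SPN

variable {α : Type} [DecidableEq α] (κ : α → List α → ℂ)

/-- the span is invariant under the operators `T` -/
theorem inv (j : α) (f : List α →₀ ℂ) (hf : f ∈ Submodule.span ℂ (Set.range (nn κ))) :
    T κ j f ∈ Submodule.span ℂ (Set.range (nn κ)) := by
  induction hf using Submodule.span_induction with
  | mem x hx =>
    obtain ⟨w, rfl⟩ := hx
    rw [← nn_append]
    exact Submodule.subset_span ⟨_, rfl⟩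
  | zero =>
    rw [map_zero]
    exact Submodule.zero_mem _
  | add x y _ _ hx hy =>
    rw [map_add]
    exact Submodule.add_mem _ hx hy
  | smul a x _ hx =>
    rw [map_smul]
    exact Submodule.smul_mem _ _ hx

end SPN

theorem spn_thm : SPNStmt := by
  intro α _ κ u
  obtain ⟨n, hn⟩ : ∃ n, n = u.length := ⟨_, rfl⟩
  induction n using Nat.strong_induction_on generalizing u with
  | _ n ih =>
    match u, hn with
    | [], _ => exact Submodule.subset_span ⟨[], rfl⟩
    | j :: u', hn =>
      have hlt : u'.length < n := by
        rw [hn, List.length_cons]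
        exact Nat.lt_succ_self _
      have h1 := SPN.inv κ j _ (ih _ hlt u' rfl)
      rw [T_single] at h1
      have h2 : ∑ k ∈ Finset.range (u'.length + 1), Finsupp.single (u'.drop k) (κ j (u'.take k)) ∈
          Submodule.span ℂ (Set.range (nn κ)) := by
        refine Submodule.sum_mem _ fun k _ => ?_
        have h3 : (u'.drop k).length < n := by
          rw [List.length_drop]
          omega
        have h4 := Submodule.smul_mem _ (κ j (u'.take k)) (ih _ h3 (u'.drop k) rfl)
        rw [Finsupp.smul_single, smul_eq_mul, mul_one] at h4
        exact h4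
      exact (Submodule.add_mem_iff_left _ h2).1 h1

end Pool.CGR
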